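import Pool.Agent.helper81.EP.SpecO

/-!
# Project ep (MP_ebc808_nt), module OS1 (helper77)
-/

set_option autoImplicit false

open Finset
open scoped Real

noncomputable section

namespace Pool.Agent.EP

theorem OS1_pow (Z k : ℕ) (ε : ℝ) : (Z : ℝ) ^ ((k : ℝ) * ε) = ((Z : ℝ) ^ ε) ^ k := by
  rw [mul_comm, Real.rpow_mul (Nat.cast_nonneg Z), Real.rpow_natCast]

theorem OS1_npow (Z k : ℕ) (ε : ℝ) : (Z : ℝ) ^ (-((k : ℝ) * ε)) = (((Z : ℝ) ^ ε) ^ k)⁻¹ := by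
  rw [Real.rpow_neg (Nat.cast_nonneg Z), OS1_pow]

theorem OS1_zero : sO 0 = 1 := by
  unfold sO
  have h : {n ∈ range (0 + 1) | Odd (Fintype.card (Nat.Partition n))} = {0} := by
    ext n
    simp only [zero_add, range_one, mem_filter, mem_singleton]
    constructor
    · exact fun h => h.1
    · rintro rfl
      refine ⟨rfl, ?_⟩
      have : Fintype.card (Nat.Partition 0) = 1 := by
        rw [Fintype.card_eq_one_iff_nonempty_unique]
        exact ⟨inferInstance⟩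
      rw [this]
      exact odd_one
  rw [h, card_singleton]

theorem OS1_succ (y : ℕ) : sO (y + 1) ≤ sO y + 1 := by
  unfold sO
  rw [Finset.range_add_one (n := y + 1), filter_insert]
  split_ifs
  · exact card_insert_le _ _
  · exact Nat.le_succ _

theorem OS1_add (y k : ℕ) : sO (y + k) ≤ sO y + k := by
  induction k with
  | zero => simp
  | succ k ih =>
    have := OS1_succ (y + k)
    rw [← add_assoc]
    omega

theorem OS1_le (y : ℕ) : sO y ≤ y + 1 := by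
  unfold sO
  refine (card_filter_le _ _).trans ?_
  rw [card_range]

theorem OS1 (hOA : OA_stmt) : OS1_stmt := by
  intro ε hε hε1
  obtain ⟨Z₁, hZ₁⟩ := hOA ε hε (by linarith)
  refine ⟨max Z₁ ⌈(2 : ℝ) ^ (1 / ε)⌉₊, fun Z b Y hZ hb hY hA hsY => ?_⟩
  have hZ1 : Z₁ ≤ Z := (le_max_left _ _).trans hZ
  have hZ2 : (2 : ℝ) ^ (1 / ε) ≤ Z := by
    have h := (Nat.le_ceil ((2 : ℝ) ^ (1 / ε))).trans
      (Nat.cast_le.2 ((le_max_right Z₁ ⌈(2 : ℝ) ^ (1 / ε)⌉₊).trans hZ))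
    exact h
  obtain ⟨x, hx⟩ : ∃ x : ℝ, x = (Z : ℝ) ^ ε := ⟨_, rfl⟩
  have hx2 : 2 ≤ x := by
    have h := Real.rpow_le_rpow (by positivity) hZ2 hε.le
    rw [← Real.rpow_mul (by norm_num), one_div_mul_cancel hε.ne', Real.rpow_one] at h
    rw [hx]
    exact h
  have hx0 : 0 < x := by linarith
  obtain ⟨A, hAdef⟩ : ∃ A : ℝ, A = (4 : ℝ) ^ b := ⟨_, rfl⟩
  have hA0 : 0 < A := by rw [hAdef]; positivity
  have e50 := OS1_pow Z 50 ε
  have e10 := OS1_npow Z 10 ε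
  have e10' := OS1_pow Z 10 ε
  have e5 := OS1_npow Z 5 ε
  have e9 := OS1_pow Z 9 ε
  have e40 := OS1_npow Z 40 ε
  rw [← hx] at e50 e10 e10' e5 e9 e40
  push_cast at e50 e10 e10' e5 e9 e40
  rw [e50, ← hAdef] at hA
  rw [e10, ← hAdef] at hsY
  rw [e40]
  have p2 : ∀ k : ℕ, (2 : ℝ) ^ k ≤ x ^ k := fun k => pow_le_pow_left₀ (by norm_num) hx2 k
  obtain ⟨B, hB⟩ : ∃ B : ℝ, B = A * (x ^ 10)⁻¹ := ⟨_, rfl⟩
  have hBx : x ^ 40 ≤ B := by
    rw [hB, ← div_eq_mul_inv, le_div_iff₀ (by positivity), ← pow_add]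
    exact hA
  rw [← hB] at hsY
  obtain ⟨U, hU⟩ : ∃ U : ℕ, U = ⌊B / 4⌋₊ := ⟨_, rfl⟩
  have hB0 : 0 < B := lt_of_lt_of_le (by positivity) hBx
  have hU1 : (U : ℝ) ≤ B / 4 := by rw [hU]; exact Nat.floor_le (by positivity)
  have hB8 : 8 * x ^ 10 ≤ B := by
    have h1 : 8 * x ^ 10 ≤ x ^ 30 * x ^ 10 := by
      refine mul_le_mul_of_nonneg_right ?_ (by positivity)
      exact le_trans (by norm_num) (p2 30)
    rw [← pow_add] at h1
    exact h1.trans hBx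
  have hU2 : B / 8 ≤ U := by
    have h1 : B / 4 < U + 1 := by rw [hU]; exact Nat.lt_floor_add_one _
    have h2 : (8 : ℝ) ≤ B := by
      have := p2 10
      nlinarith
    linarith
  have hUx : x ^ 10 ≤ (U : ℝ) := by linarith
  have hU2' : 2 ≤ U := by
    have : (2 : ℝ) ≤ U := le_trans (le_trans (by norm_num) (p2 10)) hUx
    exact_mod_cast this
  -- the smallest y
  have hex : ∃ y, 2 * U ≤ sO y := by
    refine ⟨Y, ?_⟩
    have : ((2 * U : ℕ) : ℝ) ≤ sO Y := by push_cast; linarith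
    exact_mod_cast this
  classical
  obtain ⟨y, hy⟩ : ∃ y, y = Nat.find hex := ⟨_, rfl⟩
  have hy1 : 2 * U ≤ sO y := by rw [hy]; exact Nat.find_spec hex
  have hyY : y ≤ Y := by
    rw [hy]
    refine Nat.find_min' hex ?_
    have : ((2 * U : ℕ) : ℝ) ≤ sO Y := by push_cast; linarith
    exact_mod_cast this
  have hy2 : sO y = 2 * U := by
    refine le_antisymm ?_ hy1
    rcases Nat.eq_zero_or_pos y with h0 | h0
    · rw [h0, OS1_zero] at hy1
      omega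
    · obtain ⟨y', rfl⟩ : ∃ y', y = y' + 1 := ⟨y - 1, by omega⟩
      have h1 : ¬ 2 * U ≤ sO y' := by
        intro h
        have := Nat.find_min' hex h
        omega
      have := OS1_succ y'
      omega
  have hUy : U < y := by
    have := OS1_le y
    omega
  have h16 : 16 ^ b * y ≤ Z := (Nat.mul_le_mul_left _ hyY).trans hY
  have hsub : (U : ℝ) ≤ sO (y - U) := by
    have h1 := OS1_add (y - U) U
    rw [Nat.sub_add_cancel hUy.le, hy2] at h1
    have : U ≤ sO (y - U) := by omega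
    exact_mod_cast this
  have hmain := hZ₁ Z b y U hZ1 hb h16 hUy (by rw [e10']; exact hUx) (by
    rw [e5, hy2, ← hAdef]
    have h1 : ((2 * U : ℕ) : ℝ) * x ^ 5 ≤ Real.sqrt (A * U) := by
      refine Real.le_sqrt_of_sq_le ?_
      have h2 : 4 * (U : ℝ) * x ^ 10 ≤ A := by
        have h3 : 4 * (U : ℝ) ≤ A * (x ^ 10)⁻¹ := by rw [← hB]; linarith
        rwa [← div_eq_mul_inv, le_div_iff₀ (by positivity)] at h3
      push_cast
      have h4 : (2 * (U : ℝ) * x ^ 5) ^ 2 = (4 * U * x ^ 10) * U := by ring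
      rw [h4]
      exact mul_le_mul_of_nonneg_right h2 (Nat.cast_nonneg U)
    rw [← div_eq_mul_inv, le_div_iff₀ (by positivity)]
    exact h1)
  rw [e9, ← hAdef] at hmain
  have hs1 : A * (x ^ 10)⁻¹ / 8 ≤ U := by rw [← hB]; exact hU2
  -- U * sqrt (A U) is large
  have hs2 : A * (x ^ 5)⁻¹ / 3 ≤ Real.sqrt (A * U) := by
    refine Real.le_sqrt_of_sq_le ?_
    have h1 : (A * (x ^ 5)⁻¹ / 3) ^ 2 = A * (A * (x ^ 10)⁻¹ / 9) := by
      have : (x ^ 10)⁻¹ = ((x ^ 5)⁻¹) ^ 2 := by rw [inv_pow, ← pow_mul]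
      rw [this]
      ring
    rw [h1]
    refine mul_le_mul_of_nonneg_left ?_ hA0.le
    have : 0 < A * (x ^ 10)⁻¹ := by positivity
    linarith
  have hs3 : A * (x ^ 10)⁻¹ / 8 * (A * (x ^ 5)⁻¹ / 3) ≤ x ^ 9 * sO Z :=
    (mul_le_mul (hs1.trans hsub) hs2 (by positivity) (Nat.cast_nonneg _)).trans hmain
  have e16 : (16 : ℝ) ^ b = A ^ 2 := by
    rw [hAdef, ← pow_mul, mul_comm b 2, pow_mul]
    norm_num
  rw [e16]
  have h5 : A ^ 2 ≤ 24 * x ^ 24 * sO Z := by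
    have h6 : A * (x ^ 10)⁻¹ / 8 * (A * (x ^ 5)⁻¹ / 3) * (24 * x ^ 15) = A ^ 2 := by
      field_simp
      ring
    calc A ^ 2 = A * (x ^ 10)⁻¹ / 8 * (A * (x ^ 5)⁻¹ / 3) * (24 * x ^ 15) := h6.symm
      _ ≤ (x ^ 9 * sO Z) * (24 * x ^ 15) := mul_le_mul_of_nonneg_right hs3 (by positivity)
      _ = 24 * x ^ 24 * sO Z := by ring
  rw [← div_eq_mul_inv, div_le_iff₀ (by positivity)]
  refine h5.trans ?_
  have h7 : (24 : ℝ) * x ^ 24 ≤ x ^ 40 := by
    have h8 : (24 : ℝ) * x ^ 24 ≤ x ^ 16 * x ^ 24 :=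
      mul_le_mul_of_nonneg_right (le_trans (by norm_num) (p2 16)) (by positivity)
    rwa [← pow_add] at h8
  calc 24 * x ^ 24 * (sO Z : ℝ) ≤ x ^ 40 * sO Z :=
        mul_le_mul_of_nonneg_right h7 (Nat.cast_nonneg _)
    _ = (sO Z : ℝ) * x ^ 40 := mul_comm _ _

end Pool.Agent.EP
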